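import Mathlib

namespace Pool.Agent.Results.MP_51a8c5_co.Cliques

open Polynomial Finset

open Classical in
/-- nonempty vertex sets inducing a connected subgraph -/
noncomputable def csets {V : Type} [Fintype V] (G : SimpleGraph V) : Finset (Finset V) :=
  univ.filter fun S => (G.induce (S : Set V)).Connected

noncomputable def cpoly {V : Type} [Fintype V] (G : SimpleGraph V) : ℝ[X] :=
  ∑ S ∈ csets G, X ^ S.card

noncomputable def nrel {V : Type} [Fintype V] (G : SimpleGraph V) : ℝ[X] :=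
  ∑ S ∈ csets G, X ^ S.card * (1 - X) ^ (Fintype.card V - S.card)

def RealRooted (P : ℝ[X]) : Prop := ∀ z : ℂ, aeval z P = 0 → z.im = 0

def K {ι : Type} (sz : ι → ℕ) : SimpleGraph (Σ c : ι, Fin (sz c)) where
  Adj u v := u ≠ v ∧ u.1 = v.1
  symm := ⟨fun _ _ h => ⟨h.1.symm, h.2.symm⟩⟩
  loopless := ⟨fun _ h => h.1 rfl⟩

theorem same {ι : Type} (sz : ι → ℕ) (S : Set (Σ c : ι, Fin (sz c))) (u v : S)
    (h : ((K sz).induce S).Reachable u v) : u.1.1 = v.1.1 := by
  rw [SimpleGraph.reachable_iff_reflTransGen] at h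
  induction h with
  | refl => rfl
  | tail _ h ih => exact ih.trans h.2

theorem cpoly_K {ι : Type} [Fintype ι] (sz : ι → ℕ) :
    cpoly (K sz) = ∑ c, ((X + 1) ^ sz c - 1) := by
  classical
  let fib : ι → Finset (Σ c : ι, Fin (sz c)) := fun c => univ.filter fun u => u.1 = c
  have hc : ∀ c, (fib c).card = sz c := by
    intro c
    have : fib c = univ.map ⟨Sigma.mk c, sigma_mk_injective⟩ := by
      ext ⟨a, b⟩
      simp only [fib, mem_filter, mem_univ, true_and, mem_map, Function.Embedding.coeFn_mk]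
      exact ⟨fun h => by subst h; exact ⟨b, rfl⟩, fun ⟨_, h⟩ => (congrArg Sigma.fst h).symm⟩
    rw [this, card_map, card_univ, Fintype.card_fin]
  have he : csets (K sz) = univ.biUnion fun c => (fib c).powerset.erase ∅ := by
    ext S
    simp only [csets, mem_filter, mem_univ, true_and, mem_biUnion, mem_erase, mem_powerset]
    constructor
    · intro h
      obtain ⟨u⟩ := h.nonempty
      exact ⟨u.1.1, ne_empty_of_mem u.2, fun v hv =>
        mem_filter.2 ⟨mem_univ _, same sz _ ⟨v, hv⟩ u (h.preconnected _ _)⟩⟩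
    · rintro ⟨c, h1, h2⟩
      obtain ⟨u, hu⟩ := nonempty_iff_ne_empty.2 h1
      have : Nonempty (S : Set (Σ c : ι, Fin (sz c))) := ⟨⟨u, hu⟩⟩
      refine ⟨fun a b => ?_⟩
      by_cases e : a = b
      · rw [e]
      · exact SimpleGraph.Adj.reachable ⟨fun h => e (Subtype.ext h),
          (mem_filter.1 (h2 a.2)).2.trans (mem_filter.1 (h2 b.2)).2.symm⟩
  unfold cpoly
  rw [he, sum_biUnion]
  · refine sum_congr rfl fun c _ => ?_
    rw [sum_erase_eq_sub (empty_mem_powerset _), ← hc, ← sum_pow_mul_eq_add_pow]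
    simp
  · intro a _ b _ hab
    refine disjoint_left.2 fun S h1 h2 => hab ?_
    obtain ⟨u, hu⟩ := nonempty_iff_ne_empty.2 (mem_erase.1 h1).1
    exact (mem_filter.1 (mem_powerset.1 (mem_erase.1 h1).2 hu)).2.symm.trans
      (mem_filter.1 (mem_powerset.1 (mem_erase.1 h2).2 hu)).2

def r (n j : ℕ) : ℕ := n.choose j * n ^ (n - j)

theorem r_le (n j : ℕ) : r n (j + 1) ≤ r n j := by
  unfold r
  by_cases h : j < n
  · rw [show n - j = n - (j + 1) + 1 by omega, pow_succ', ← mul_assoc]
    refine Nat.mul_le_mul_right _ ?_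
    have := Nat.choose_succ_right_eq n j
    have h2 : n.choose j * (n - j) ≤ n.choose j * n := Nat.mul_le_mul_left _ (Nat.sub_le _ _)
    nlinarith [Nat.zero_le (n.choose (j + 1) * j)]
  · simp [Nat.choose_eq_zero_of_lt (show n < j + 1 by omega)]

theorem abl (n k : ℕ) : ∑ j ∈ range k, ((r n j - r n (j + 1) : ℕ) : ℝ[X]) * ((X + 1) ^ (j + 1) - 1) =
    X * ∑ j ∈ range k, (r n j : ℝ[X]) * (X + 1) ^ j - (r n k : ℝ[X]) * ((X + 1) ^ k - 1) := by
  induction k with
  | zero => simp
  | succ k ih => rw [sum_range_succ, sum_range_succ, ih, Nat.cast_sub (r_le n k)]; ring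

abbrev J (n : ℕ) := Σ j : Fin (n + 1), Fin (r n j - r n (j + 1))

theorem cp (n : ℕ) : cpoly (K fun c : J n => c.1.val + 1) = X * (X + C ((n : ℝ) + 1)) ^ n := by
  rw [cpoly_K, Fintype.sum_sigma]
  simp only [sum_const, card_univ, Fintype.card_fin, nsmul_eq_mul]
  rw [Fin.sum_univ_eq_sum_range
    (fun j => ((r n j - r n (j + 1) : ℕ) : ℝ[X]) * ((X + 1) ^ (j + 1) - 1)) (n + 1), abl]
  have h0 : r n (n + 1) = 0 := by simp [r]
  have : (X + C ((n : ℝ) + 1) : ℝ[X]) = (X + 1) + (n : ℝ[X]) := by simp; ring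
  rw [h0, this, add_pow (X + 1 : ℝ[X])]
  simp only [Nat.cast_zero, zero_mul, sub_zero, r]
  congr 1
  exact sum_congr rfl fun j _ => by push_cast; ring

theorem nrel_rr {V : Type} [Fintype V] (G : SimpleGraph V) (h : RealRooted (cpoly G)) :
    RealRooted (nrel G) := by
  intro z hz
  by_cases h1 : z = 1
  · simp [h1]
  have h2 : (1 - z) ≠ 0 := sub_ne_zero.2 (Ne.symm h1)
  have h3 : (1 - z) ^ Fintype.card V * aeval (z / (1 - z)) (cpoly G) = 0 := by
    rw [← hz]
    simp only [cpoly, nrel, map_sum, map_pow, map_mul, map_sub, map_one, aeval_X, mul_sum]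
    refine sum_congr rfl fun S _ => ?_
    obtain ⟨k, hk⟩ := Nat.exists_eq_add_of_le (card_le_univ S)
    rw [hk, Nat.add_sub_cancel_left, pow_add, div_pow]
    field_simp
  have h4 := h _ ((mul_eq_zero.1 h3).resolve_left (pow_ne_zero _ h2))
  have h5 : z = z / (1 - z) * (1 - z) := by field_simp
  have h6 : 1 = (1 + z / (1 - z)) * (1 - z) := by field_simp; ring
  have a := congrArg Complex.im h6
  have b := congrArg Complex.re h6
  simp only [Complex.mul_im, Complex.mul_re, Complex.add_im, Complex.add_re, h4, Complex.one_im,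
    Complex.one_re, Complex.sub_im, add_zero, zero_mul, zero_sub, mul_neg] at a b
  rcases mul_eq_zero.1 (neg_eq_zero.1 a.symm) with h7 | h7
  · rw [h7] at b; simp at b
  · exact h7

theorem result (d : ℕ) : ∃ (V : Type) (_ : Fintype V) (G : SimpleGraph V), ¬ G.Preconnected ∧
    d ≤ (cpoly G).natDegree ∧ RealRooted (cpoly G) ∧ RealRooted (nrel G) := by
  have hrr : RealRooted (cpoly (K fun c : J (d + 2) => c.1.val + 1)) := by
    intro z hz
    rw [cp] at hz
    simp only [map_mul, map_pow, map_add, aeval_X, aeval_C, mul_eq_zero] at hz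
    rcases hz with rfl | hz
    · rfl
    · have := congrArg Complex.im (pow_eq_zero_iff (by omega) |>.1 hz)
      simpa using this
  refine ⟨_, inferInstance, K fun c : J (d + 2) => c.1.val + 1, fun h => ?_, ?_, hrr, nrel_rr _ hrr⟩
  · have h1 : 0 < r (d + 2) (d + 2) - r (d + 2) (d + 2 + 1) := by simp [r]
    have h2 : 0 < r (d + 2) (d + 1) - r (d + 2) (d + 1 + 1) := by
      have : (d + 2).choose (d + 1) = d + 2 := Nat.choose_succ_self_right (d + 1)
      simp only [r, this, show d + 1 + 1 = d + 2 from rfl, Nat.choose_self, Nat.sub_self,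
        show d + 2 - (d + 1) = 1 by omega]
      have : 2 * 2 ≤ (d + 2) * (d + 2) := Nat.mul_le_mul (by omega) (by omega)
      rw [pow_one, pow_zero]; omega
    have hr := h ⟨⟨⟨d + 2, by omega⟩, ⟨0, h1⟩⟩, 0⟩ ⟨⟨⟨d + 1, by omega⟩, ⟨0, h2⟩⟩, 0⟩
    rw [SimpleGraph.reachable_iff_reflTransGen] at hr
    have key : ∀ u v, Relation.ReflTransGen (K fun c : J (d + 2) => c.1.val + 1).Adj u v →
        u.1.1.val = v.1.1.val := by
      intro u v h
      induction h with
      | refl => rfl
      | tail _ h ih => rw [ih, h.2]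
    have := key _ _ hr
    simp at this
  · rw [cp, Monic.natDegree_mul monic_X ((monic_X_add_C _).pow _), natDegree_X,
      (monic_X_add_C _).natDegree_pow, natDegree_X_add_C]
    omega

end Pool.Agent.Results.MP_51a8c5_co.Cliques
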